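import Mathlib

namespace Pool.Agent.Q139.Aztec

open Polynomial Finset

/-- the polynomial `(1+X)^a (1-X)^b` -/
noncomputable def pp (a b : ℕ) : ℚ[X] := (1 + X) ^ a * (1 - X) ^ b

theorem pp_succ_left (a b : ℕ) : pp (a + 1) b = (1 + X) * pp a b := by
  unfold pp; ring

theorem pp_succ_right (a b : ℕ) : pp a (b + 1) = (1 - X) * pp a b := by
  unfold pp; ring

theorem pp_natDegree_le (a b : ℕ) : (pp a b).natDegree ≤ a + b := by
  unfold pp
  refine natDegree_mul_le.trans ?_
  have h1 : ((1 + X : ℚ[X]) ^ a).natDegree ≤ a := by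
    refine natDegree_pow_le.trans ?_
    have : (1 + X : ℚ[X]).natDegree ≤ 1 := by
      refine (natDegree_add_le _ _).trans ?_
      simp
    calc a * (1 + X : ℚ[X]).natDegree ≤ a * 1 := Nat.mul_le_mul_left _ this
      _ = _ := mul_one _
  have h2 : ((1 - X : ℚ[X]) ^ b).natDegree ≤ b := by
    refine natDegree_pow_le.trans ?_
    have : (1 - X : ℚ[X]).natDegree ≤ 1 := by
      refine (natDegree_sub_le _ _).trans ?_
      simp
    calc b * (1 - X : ℚ[X]).natDegree ≤ b * 1 := Nat.mul_le_mul_left _ this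
      _ = _ := mul_one _
  omega

theorem pp_coeff_big (a b n : ℕ) (h : a + b < n) : (pp a b).coeff n = 0 :=
  coeff_eq_zero_of_natDegree_lt (lt_of_le_of_lt (pp_natDegree_le a b) h)

theorem coeff_add_mul (p : ℚ[X]) (n : ℕ) : ((1 + X) * p).coeff (n + 1) = p.coeff (n + 1) + p.coeff n := by
  rw [add_mul, one_mul, coeff_add, coeff_X_mul]

theorem coeff_sub_mul (p : ℚ[X]) (n : ℕ) : ((1 - X) * p).coeff (n + 1) = p.coeff (n + 1) - p.coeff n := by
  rw [sub_mul, one_mul, coeff_sub, coeff_X_mul]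

theorem coeff_add_mul_zero (p : ℚ[X]) : ((1 + X) * p).coeff 0 = p.coeff 0 := by
  simp [add_mul, coeff_add, mul_coeff_zero]

theorem coeff_sub_mul_zero (p : ℚ[X]) : ((1 - X) * p).coeff 0 = p.coeff 0 := by
  simp [sub_mul, coeff_sub, mul_coeff_zero]

/-- palindromic symmetry -/
theorem pp_symm (b : ℕ) : ∀ a j k : ℕ, j + k = a + b →
    (pp a b).coeff j = (-1) ^ b * (pp a b).coeff k := by
  induction b with
  | zero =>
    intro a
    induction a with
    | zero =>
      intro j k h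
      have hj : j = 0 := by omega
      have hk : k = 0 := by omega
      subst hj; subst hk; simp
    | succ a ih =>
      intro j k h
      rw [pp_succ_left]
      rcases j with _ | j
      · rw [coeff_add_mul_zero]
        obtain ⟨k', rfl⟩ : ∃ k', k = k' + 1 := ⟨k - 1, by omega⟩
        rw [coeff_add_mul, pp_coeff_big a 0 (k' + 1) (by omega), zero_add]
        exact ih 0 k' (by omega)
      · rw [coeff_add_mul]
        rcases k with _ | k
        · rw [coeff_add_mul_zero, pp_coeff_big a 0 (j + 1) (by omega), zero_add]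
          exact ih j 0 (by omega)
        · rw [coeff_add_mul, ih (j + 1) k (by omega), ih j (k + 1) (by omega)]
          ring
  | succ b ih =>
    intro a j k h
    rw [pp_succ_right, pow_succ]
    rcases j with _ | j
    · rw [coeff_sub_mul_zero]
      obtain ⟨k', rfl⟩ : ∃ k', k = k' + 1 := ⟨k - 1, by omega⟩
      rw [coeff_sub_mul, pp_coeff_big a b (k' + 1) (by omega), zero_sub, ih a 0 k' (by omega)]
      ring
    · rw [coeff_sub_mul]
      rcases k with _ | k
      · rw [coeff_sub_mul_zero, pp_coeff_big a b (j + 1) (by omega), zero_sub,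
          ih a j 0 (by omega)]
        ring
      · rw [coeff_sub_mul, ih a (j + 1) k (by omega), ih a j (k + 1) (by omega)]
        ring

/-- central coefficient with odd exponents vanishes -/
theorem pp_odd (a b n : ℕ) (h : a + b = 2 * n) (hb : Odd b) : (pp a b).coeff n = 0 := by
  have h1 := pp_symm b a n n (by omega)
  rw [hb.neg_one_pow] at h1
  linarith

/-- half a central coefficient, `b` even -/
theorem pp_half_even (a b n : ℕ) (h : a + b + 1 = 2 * n) (hb : Even b) :
    (pp a b).coeff n = (pp (a + 1) b).coeff n / 2 := by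
  obtain ⟨m, rfl⟩ : ∃ m, n = m + 1 := ⟨n - 1, by omega⟩
  have h1 := pp_symm b a (m + 1) m (by omega)
  rw [hb.neg_one_pow] at h1
  rw [pp_succ_left, coeff_add_mul]
  linarith

/-- half a central coefficient, `b` odd -/
theorem pp_half_odd (a b n : ℕ) (h : a + b + 1 = 2 * n) (hb : Odd b) :
    (pp a b).coeff n = (pp a (b + 1)).coeff n / 2 := by
  obtain ⟨m, rfl⟩ : ∃ m, n = m + 1 := ⟨n - 1, by omega⟩
  have h1 := pp_symm b a (m + 1) m (by omega)
  rw [hb.neg_one_pow] at h1
  rw [pp_succ_right, coeff_sub_mul]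
  linarith

/-- the (rational) super Catalan numbers -/
noncomputable def S (a b : ℕ) : ℚ :=
  (a.centralBinom : ℚ) * b.centralBinom / ((a + b).choose a : ℚ)

theorem cb_succ (n : ℕ) : ((n + 1).centralBinom : ℚ) = 2 * (2 * n + 1) * n.centralBinom / (n + 1) := by
  have h := Nat.succ_mul_centralBinom_succ n
  have h2 : ((n : ℚ) + 1) * ((n + 1).centralBinom : ℚ) = 2 * (2 * n + 1) * n.centralBinom := by
    exact_mod_cast h
  have h3 : (n : ℚ) + 1 ≠ 0 := by positivity
  rw [eq_div_iff h3, ← h2]; ring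

theorem S_rec (a b : ℕ) : S a (b + 1) = 4 * S a b - S (a + 1) b := by
  unfold S
  have h1 : (((a + (b + 1)).choose a : ℕ) : ℚ) = ((a + b).choose a : ℚ) * (a + b + 1) / (b + 1) := by
    have h := Nat.choose_mul_succ_eq (a + b) a
    have h2 : a + b + 1 - a = b + 1 := by omega
    rw [h2] at h
    have h3 : (((a + b).choose a : ℕ) : ℚ) * (a + b + 1) = ((a + b + 1).choose a : ℕ) * (b + 1) := by
      exact_mod_cast h
    rw [eq_div_iff (by positivity), show a + (b + 1) = a + b + 1 from by ring]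
    exact h3.symm
  have h2 : (((a + 1 + b).choose (a + 1) : ℕ) : ℚ) = ((a + b).choose a : ℚ) * (a + b + 1) / (a + 1) := by
    have h := Nat.add_one_mul_choose_eq (a + b) a
    have h3 : ((a : ℚ) + b + 1) * ((a + b).choose a : ℕ) = ((a + b + 1).choose (a + 1) : ℕ) * (a + 1) := by
      exact_mod_cast h
    rw [eq_div_iff (by positivity), show a + 1 + b = a + b + 1 from by ring, ← h3]
    ring
  rw [h1, h2, cb_succ, cb_succ]
  have h3 : (((a + b).choose a : ℕ) : ℚ) ≠ 0 := by
    exact_mod_cast (Nat.choose_pos (by omega)).ne'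
  have h4 : (a : ℚ) + 1 ≠ 0 := by positivity
  have h5 : (b : ℚ) + 1 ≠ 0 := by positivity
  have h6 : (a : ℚ) + b + 1 ≠ 0 := by positivity
  field_simp
  ring

theorem pp_even_succ (a b : ℕ) :
    (pp (2 * a) (2 * (b + 1))).coeff (a + b + 1) =
      (pp (2 * (a + 1)) (2 * b)).coeff (a + b + 1) - 4 * (pp (2 * a) (2 * b)).coeff (a + b) := by
  have h : pp (2 * (a + 1)) (2 * b) - pp (2 * a) (2 * (b + 1)) = C 4 * (X * pp (2 * a) (2 * b)) := by
    unfold pp
    rw [show (C 4 : ℚ[X]) = 4 from rfl]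
    ring
  have h2 := congrArg (fun p => p.coeff (a + b + 1)) h
  simp only [coeff_sub, coeff_C_mul, coeff_X_mul] at h2
  linarith

/-- the central coefficient -/
theorem pp_even (b : ℕ) : ∀ a : ℕ, (pp (2 * a) (2 * b)).coeff (a + b) = (-1) ^ b * S a b := by
  induction b with
  | zero =>
    intro a
    have h : pp (2 * a) (2 * 0) = (1 + X) ^ (2 * a) := by unfold pp; simp
    rw [h, add_zero, coeff_one_add_X_pow]
    unfold S
    rw [Nat.centralBinom_zero, add_zero, Nat.choose_self, pow_zero, one_mul, Nat.centralBinom]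
    simp
  | succ b ih =>
    intro a
    rw [← add_assoc, pp_even_succ, ih a, S_rec, show a + b + 1 = (a + 1) + b from by ring, ih (a + 1)]
    ring

/-- the summands -/
noncomputable def u (N r : ℕ) : ℚ := (r.centralBinom : ℚ) * (N - r).centralBinom

theorem choose_S (N r : ℕ) (h : r ≤ N) : (N.choose r : ℚ) * S r (N - r) = u N r := by
  unfold S u
  rw [show r + (N - r) = N from by omega]
  have h3 : ((N.choose r : ℕ) : ℚ) ≠ 0 := by
    exact_mod_cast (Nat.choose_pos h).ne'
  field_simp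

theorem choose_S' (N r : ℕ) (h : r < N) :
    (N.choose (r + 1) : ℚ) * S r (N - r) = ((N : ℚ) - r) / (r + 1) * u N r := by
  rw [← choose_S N r h.le]
  have h1 := Nat.choose_succ_right_eq N r
  have h2 : ((N.choose (r + 1) : ℕ) : ℚ) * (r + 1) = (N.choose r : ℕ) * ((N : ℚ) - r) := by
    rw [← Nat.cast_sub h.le]
    exact_mod_cast h1
  have h3 : (r : ℚ) + 1 ≠ 0 := by positivity
  have h4 : (N.choose (r + 1) : ℚ) = (N.choose r : ℚ) * ((N : ℚ) - r) / (r + 1) := by
    rw [eq_div_iff h3]; exact h2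
  rw [h4]
  ring

/-- expansion of `X^N` -/
theorem X_pow_expand (N : ℕ) : (X : ℚ[X]) ^ N =
    ∑ r ∈ range (N + 1), C ((1 / 4) ^ N * ((-1) ^ (N - r) * (N.choose r : ℚ))) * pp (2 * r) (2 * (N - r)) := by
  have h : (X : ℚ[X]) = C (1 / 4) * ((1 + X) ^ 2 + (-(1 - X) ^ 2)) := by
    rw [show (1 + X : ℚ[X]) ^ 2 + (-(1 - X) ^ 2) = C 4 * X from by
      rw [show (C 4 : ℚ[X]) = 4 from rfl]; ring]
    rw [← mul_assoc, ← C_mul]; norm_num
  conv_lhs => rw [h]
  rw [mul_pow, add_pow, ← C_pow, Finset.mul_sum]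
  refine Finset.sum_congr rfl fun r _ => ?_
  unfold pp
  rw [neg_pow ((1 - X : ℚ[X]) ^ 2), ← pow_mul, ← pow_mul, C_mul, C_mul,
    show (C ((-1) ^ (N - r)) : ℚ[X]) = (-1) ^ (N - r) from by simp,
    show (C (N.choose r : ℚ) : ℚ[X]) = (N.choose r : ℚ[X]) from by simp]
  ring

theorem neg_one_sq (k : ℕ) : ((-1 : ℚ)) ^ k * (-1) ^ k = 1 := by
  rw [← mul_pow]; simp

theorem sum_u (N : ℕ) : ∑ r ∈ range (N + 1), u N r = 4 ^ N := by
  have h := congrArg (fun p => p.coeff N) (X_pow_expand N)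
  simp only [coeff_X_pow, if_true, finsetSum_coeff, coeff_C_mul] at h
  have h2 : ∀ r ∈ range (N + 1), (1 / 4 : ℚ) ^ N * ((-1) ^ (N - r) * (N.choose r : ℚ)) *
      (pp (2 * r) (2 * (N - r))).coeff N = (1 / 4) ^ N * u N r := by
    intro r hr
    rw [mem_range] at hr
    have h3 := pp_even (N - r) r
    rw [show r + (N - r) = N from by omega] at h3
    rw [h3, ← choose_S N r (by omega)]
    have := neg_one_sq (N - r)
    calc (1 / 4 : ℚ) ^ N * ((-1) ^ (N - r) * (N.choose r : ℚ)) * ((-1) ^ (N - r) * S r (N - r))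
        = (1 / 4 : ℚ) ^ N * ((N.choose r : ℚ) * S r (N - r)) * ((-1) ^ (N - r) * (-1) ^ (N - r)) := by ring
      _ = _ := by rw [this]; ring
  rw [Finset.sum_congr rfl h2, ← Finset.mul_sum] at h
  have h4 : ((1 / 4 : ℚ) ^ N) * 4 ^ N = 1 := by rw [← mul_pow]; norm_num
  have h5 : (1 / 4 : ℚ) ^ N ≠ 0 := by positivity
  apply mul_left_cancel₀ h5
  rw [← h, h4]

theorem u_symm (N r : ℕ) (h : r ≤ N) : u N (N - r) = u N r := by
  unfold u
  rw [show N - (N - r) = r from by omega]
  ring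

/-- upper half sum reflected -/
theorem sum_u_reflect (N a : ℕ) (h : a ≤ N + 1) :
    ∑ r ∈ Ico a (N + 1), u N r = ∑ r ∈ range (N + 1 - a), u N r := by
  have h1 := Finset.sum_Ico_reflect (fun r => u N r) 0 (m := N + 1 - a) (n := N) (by omega)
  rw [show N + 1 - (N + 1 - a) = a from by omega, Nat.sub_zero] at h1
  rw [Finset.range_eq_Ico, ← h1]
  refine Finset.sum_congr rfl fun r hr => ?_
  rw [mem_Ico] at hr
  exact u_symm N r (by omega)

theorem sum_split (N a : ℕ) (h : a ≤ N + 1) :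
    ∑ r ∈ range a, u N r + ∑ r ∈ Ico a (N + 1), u N r = 4 ^ N := by
  rw [Finset.sum_range_add_sum_Ico _ h, sum_u]

/-- telescoping -/
theorem u_step (N r : ℕ) (h : r < N) :
    u N (r + 1) * ((r + 1) * (2 * (N - r) - 1)) = u N r * ((2 * r + 1) * (N - r)) := by
  unfold u
  obtain ⟨k, rfl⟩ : ∃ k, N = r + k + 1 := ⟨N - r - 1, by omega⟩
  rw [show r + k + 1 - r = k + 1 from by omega, show r + k + 1 - (r + 1) = k from by omega,
    cb_succ, cb_succ]
  have h4 : (r : ℚ) + 1 ≠ 0 := by positivity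
  have h5 : (k : ℚ) + 1 ≠ 0 := by positivity
  push_cast
  field_simp
  ring

theorem telescope (N : ℕ) : ∀ M ≤ N, ∑ i ∈ range M, ((N : ℚ) + 1) / (i + 1) * u N i =
    (2 * N + 1) * N.centralBinom - (2 * ((N : ℚ) - M) + 1) * u N M := by
  intro M
  induction M with
  | zero =>
    intro _
    simp [u]
  | succ M ih =>
    intro h
    rw [Finset.sum_range_succ, ih (by omega)]
    have h1 := u_step N M (by omega)
    have h2 : (0 : ℚ) < (N : ℚ) - M := by
      have : (M : ℚ) + 1 ≤ N := by exact_mod_cast h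
      linarith
    have h4 : (M : ℚ) + 1 ≠ 0 := by positivity
    have h5 : (2 * ((N : ℚ) - M) - 1) ≠ 0 := by
      have : (M : ℚ) + 1 ≤ N := by exact_mod_cast h
      have h6 : (0 : ℚ) < 2 * ((N : ℚ) - M) - 1 := by linarith
      exact h6.ne'
    have h6 : u N (M + 1) = u N M * ((2 * M + 1) * (N - M)) / ((M + 1) * (2 * (N - M) - 1)) := by
      rw [eq_div_iff (mul_ne_zero h4 h5)]; exact h1
    rw [h6]
    push_cast
    field_simp
    ring

theorem telescope' (N a : ℕ) (h : a ≤ N) : ∑ i ∈ Ico a (N + 1), ((N : ℚ) + 1) / (i + 1) * u N i =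
    (2 * ((N : ℚ) - a) + 1) * u N a := by
  have h1 := telescope N N le_rfl
  have h2 := telescope N a h
  have h3 := Finset.sum_range_add_sum_Ico (fun i : ℕ => ((N : ℚ) + 1) / (i + 1) * u N i)
    (show a ≤ N + 1 by omega)
  rw [Finset.sum_range_succ, h1, h2] at h3
  have h4 : u N N = N.centralBinom := by simp [u]
  rw [h4] at h3
  have h5 : ((N : ℚ) + 1) / (N + 1) = 1 := div_self (by positivity)
  rw [h5] at h3
  linear_combination h3

/-- the weighted half sum -/
theorem sum_f (N a : ℕ) (h : a ≤ N) : ∑ i ∈ Ico a N, ((N : ℚ) - i) / (i + 1) * u N i =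
    (2 * ((N : ℚ) - a) + 1) * u N a - ∑ i ∈ Ico a (N + 1), u N i := by
  rw [← telescope' N a h, ← Finset.sum_sub_distrib, Finset.sum_Ico_succ_top h]
  have h5 : ((N : ℚ) + 1) / (N + 1) = 1 := div_self (by positivity)
  rw [h5, one_mul, sub_self, add_zero]
  refine Finset.sum_congr rfl fun i _ => ?_
  have h4 : (i : ℚ) + 1 ≠ 0 := by positivity
  field_simp
  ring

end Pool.Agent.Q139.Aztec
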