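import Pool.Agent.Q139.Aztec.Gauge

namespace Pool.Agent.Q139.Aztec

open Finset Pool.Agent.Helper848 Pool.Agent.Helper848.AztecDet

/-- The region `D_n`: the Aztec diamond of order `n` without the two unit squares with centres
`(-1/2, -1/2)` and `(1/2, 3/2)`. -/
noncomputable def knightRegion (n : ℕ) : Finset (ℤ × ℤ) := aztec n \ {(-1, -1), (0, 1)}

theorem abs_det_K0' (n : ℕ) (hn : 1 ≤ n) (e : E n ≃ O n) :
    |((K0 n).submatrix e id).det| = 2 ^ (n * (n + 1) / 2) := by
  obtain ⟨k, rfl⟩ : ∃ k, n = k + 1 := ⟨n - 1, by omega⟩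
  exact abs_det_K0 k e

theorem natAbs_cast {ι : Type*} [Fintype ι] [DecidableEq ι] (M : Matrix ι ι ℤ) (M' : Matrix ι ι ℚ)
    (h : ∀ i j, ((M i j : ℤ) : ℚ) = M' i j) : ((M.det.natAbs : ℕ) : ℚ) = |M'.det| := by
  have h1 : M' = (Int.castRingHom ℚ).mapMatrix M := by
    ext i j
    rw [← h]; rfl
  rw [h1, ← RingHom.map_det, Nat.cast_natAbs, Int.cast_abs]
  rfl

theorem card_eq (n : ℕ) (e2 : E n) (o1 : O n) :
    Nonempty ({x : E n // x ≠ e2} ≃ {o : O n // o ≠ o1}) := by
  classical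
  refine ⟨Fintype.equivOfCardEq ?_⟩
  rw [Fintype.card_subtype_compl, Fintype.card_subtype_compl]
  simp only [Fintype.card_prod, Fintype.card_fin, Fintype.card_subtype_eq]
  rw [mul_comm]

theorem main_even (N : ℕ) (hN : 1 ≤ N) :
    (numTilings (knightRegion (2 * N)) : ℚ) = 2 ^ (2 * N * (2 * N + 1) / 2) *
      |(G (2 * N) (ge N) N (N + 1)).coeff N * (1 - 2 * (G (2 * N) (ge N) (N + 1) N).coeff N) +
        2 * ((G (2 * N) (ge N) (N + 1) (N + 1)).coeff N * (G (2 * N) (ge N) N N).coeff N)| := by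
  have hreg : knightRegion (2 * N) = holed (2 * N) (ee2 N hN) (eo1 N hN) := by
    unfold knightRegion holed
    rw [Finset.pair_comm]
    congr 2
    · simp only [cE, ee2, Prod.mk.injEq]
      push_cast
      constructor <;> ring
    · rw [Finset.singleton_inj]
      simp only [cO, eo1, Prod.mk.injEq]
      omega
  obtain ⟨φ⟩ := card_eq (2 * N) (ee2 N hN) (eo1 N hN)
  have hne : eee N hN ≠ ee2 N hN := by
    simp [eee, ee2]
  obtain ⟨e, he⟩ := abs_det_minor (K0 (2 * N)) (fun x => (G (2 * N) (ge N) N x.1).coeff x.2)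
    (fun x => (G (2 * N) (ge N) (N + 1) x.1).coeff x.2) (eo1 N hN) (eoe N hN) (ee2 N hN) (eee N hN)
    hne (fun o => by
      rw [K0_G (2 * N) (ge N) N N hN (by omega) (ge_expand N) o]
      refine if_congr ?_ rfl rfl
      simp only [eo1, Prod.ext_iff, Fin.ext_iff]
      omega)
    (fun o => by
      rw [K0_G (2 * N) (ge N) (N + 1) N (by omega) (by omega) (ge_expand N) o]
      refine if_congr ?_ rfl rfl
      simp only [eoe, Prod.ext_iff, Fin.ext_iff]
      omega)
    (by rw [← KI_cast]; simp [KI, eoe, eee]) φ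
  rw [hreg, tilings_main (2 * N) (ee2 N hN) (eo1 N hN) φ
    (fun i => sg (((φ i : O (2 * N)).2 : ℕ) < N ∨ (((φ i : O (2 * N)).2 : ℕ) = N ∧ ((φ i : O (2 * N)).1 : ℕ) + 1 < N)))
    (fun j => sg (((j : E (2 * N)).2 : ℕ) < N ∨ (((j : E (2 * N)).2 : ℕ) = N ∧ ((j : E (2 * N)).1 : ℕ) ≤ N)))
    (Matrix.of fun i j => if (φ i : O (2 * N)) = eoe N hN ∧ (j : E (2 * N)) = eee N hN then -1
      else KI (2 * N) (φ i) j)
    (fun i j => gauge_even N hN (φ i) j (φ i).2 j.2),
    natAbs_cast _ (Matrix.of fun i j => if (φ i : O (2 * N)) = eoe N hN ∧ (j : E (2 * N)) = eee N hN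
      then -1 else K0 (2 * N) (φ i) j) (fun i j => by
        rw [Matrix.of_apply, Matrix.of_apply]
        split_ifs
        · norm_num
        · exact KI_cast _ _ _), he, abs_det_K0' (2 * N) (by omega) e]
  rfl

theorem main_odd (N : ℕ) (hN : 1 ≤ N) :
    (numTilings (knightRegion (2 * N + 1)) : ℚ) = 2 ^ ((2 * N + 1) * (2 * N + 1 + 1) / 2) *
      |(- (G (2 * N + 1) (go N) (N + 2) N).coeff N) *
          (1 - 2 * (- (G (2 * N + 1) (go N) (N + 1) (N + 1)).coeff N)) +
        2 * ((- (G (2 * N + 1) (go N) (N + 1) N).coeff N) *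
          (- (G (2 * N + 1) (go N) (N + 2) (N + 1)).coeff N))| := by
  have hreg : knightRegion (2 * N + 1) = holed (2 * N + 1) (oe2 N hN) (oo1 N hN) := by
    unfold knightRegion holed
    congr 2
    · simp only [cE, oe2, Prod.mk.injEq]
      push_cast
      constructor <;> ring
    · rw [Finset.singleton_inj]
      simp only [cO, oo1, Prod.mk.injEq]
      omega
  obtain ⟨φ⟩ := card_eq (2 * N + 1) (oe2 N hN) (oo1 N hN)
  have hne : oee N hN ≠ oe2 N hN := by
    simp [oee, oe2]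
  obtain ⟨e, he⟩ := abs_det_minor (- K0 (2 * N + 1))
    (fun x => - (G (2 * N + 1) (go N) (N + 2) x.1).coeff x.2)
    (fun x => - (G (2 * N + 1) (go N) (N + 1) x.1).coeff x.2)
    (oo1 N hN) (ooe N hN) (oe2 N hN) (oee N hN)
    hne (fun o => by
      simp only [Matrix.neg_apply, neg_mul_neg]
      rw [K0_G (2 * N + 1) (go N) (N + 2) (N + 1) (by omega) (by omega) (go_expand N) o]
      refine if_congr ?_ rfl rfl
      simp only [oo1, Prod.ext_iff, Fin.ext_iff]
      omega)
    (fun o => by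
      simp only [Matrix.neg_apply, neg_mul_neg]
      rw [K0_G (2 * N + 1) (go N) (N + 1) (N + 1) (by omega) (by omega) (go_expand N) o]
      refine if_congr ?_ rfl rfl
      simp only [ooe, Prod.ext_iff, Fin.ext_iff]
      omega)
    (by rw [Matrix.neg_apply, ← KI_cast]; simp [KI, ooe, oee]) φ
  have hneg : |((- K0 (2 * N + 1)).submatrix e id).det| = |((K0 (2 * N + 1)).submatrix e id).det| := by
    have : (- K0 (2 * N + 1)).submatrix e id = - ((K0 (2 * N + 1)).submatrix e id) := by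
      ext i j; rfl
    rw [this, Matrix.det_neg, abs_mul, abs_pow, abs_neg, abs_one, one_pow, one_mul]
  rw [hreg, tilings_main (2 * N + 1) (oe2 N hN) (oo1 N hN) φ
    (fun i => - sg (((φ i : O (2 * N + 1)).2 : ℕ) % 2 = 1) * sg (((φ i : O (2 * N + 1)).2 : ℕ) ≤ N))
    (fun j => sg (((j : E (2 * N + 1)).2 : ℕ) % 2 = 1) * sg (((j : E (2 * N + 1)).2 : ℕ) ≤ N))
    (Matrix.of fun i j => if (φ i : O (2 * N + 1)) = ooe N hN ∧ (j : E (2 * N + 1)) = oee N hN then -1
      else - KI (2 * N + 1) (φ i) j)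
    (fun i j => gauge_odd N hN (φ i) j (φ i).2 j.2),
    natAbs_cast _ (Matrix.of fun i j => if (φ i : O (2 * N + 1)) = ooe N hN ∧
      (j : E (2 * N + 1)) = oee N hN then -1 else (- K0 (2 * N + 1)) (φ i) j) (fun i j => by
        rw [Matrix.of_apply, Matrix.of_apply]
        split_ifs
        · norm_num
        · rw [Matrix.neg_apply, ← KI_cast, Int.cast_neg]), he, hneg,
    abs_det_K0' (2 * N + 1) (by omega) e]
  rfl

end Pool.Agent.Q139.Aztec
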