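import Pool.Agent.Q139.Aztec.Region

namespace Pool.Agent.Q139.Aztec

open Finset Pool.Agent.Helper848 Pool.Agent.Helper848.AztecDet

/-- sign with a condition -/
def sg (p : Prop) [Decidable p] : ℤˣ := if p then -1 else 1

theorem kast_val (n : ℕ) (e2 : E n) (o1 : O n) (o : O n) (x : E n) :
    kast (holed n e2 o1) (cO n o) (cE n x) =
      if ((x.1 : ℕ) = o.1 ∨ (x.1 : ℕ) = o.1 + 1) ∧ ((x.2 : ℕ) = o.2 ∨ (x.2 : ℕ) + 1 = o.2) then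
        (if (x.2 : ℕ) + 1 = o.2 then
          (if (n + (o.1 : ℕ) + x.1 + (if x.2 = e2.2 ∧ x.1 < e2.1 then 1 else 0) +
            (if o.2 = o1.2 ∧ o1.1 < o.1 then 1 else 0)) % 2 = 0 then 1 else -1) else 1) else 0 := by
  unfold kast
  have h1 := above_eq n e2 o1 x
  have h2 := below_eq n e2 o1 o
  simp only [adj_iff, up_iff]
  set δ1 := (if x.2 = e2.2 ∧ x.1 < e2.1 then 1 else 0 : ℕ)
  set δ2 := (if o.2 = o1.2 ∧ o1.1 < o.1 then 1 else 0 : ℕ)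
  set a := above (holed n e2 o1) (cE n x)
  set b := below (holed n e2 o1) (cO n o)
  have h3 : ((-1 : ℤ)) ^ (a + b) = if (n + (o.1 : ℕ) + x.1 + δ1 + δ2) % 2 = 0 then 1 else -1 := by
    rcases Nat.even_or_odd (a + b) with h | h
    · rw [h.neg_one_pow, if_pos]
      rw [Nat.even_iff] at h
      omega
    · rw [h.neg_one_pow, if_neg]
      rw [Nat.odd_iff] at h
      omega
  rw [h3]

section even

variable (N : ℕ) (hN : 1 ≤ N)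

/-- the cell `(0,1)` -/
def ee2 : E (2 * N) := (⟨N + 1, by omega⟩, ⟨N, by omega⟩)
/-- the cell `(-1,-1)` -/
def eo1 : O (2 * N) := (⟨N - 1, by omega⟩, ⟨N, by omega⟩)
/-- the cell `(0,0)` -/
def eoe : O (2 * N) := (⟨N, by omega⟩, ⟨N, by omega⟩)
/-- the cell `(-1,0)` -/
def eee : E (2 * N) := (⟨N, by omega⟩, ⟨N, by omega⟩)

theorem gauge_even (o : O (2 * N)) (x : E (2 * N)) (ho : o ≠ eo1 N hN) (hx : x ≠ ee2 N hN) :
    (if o = eoe N hN ∧ x = eee N hN then -1 else KI (2 * N) o x) =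
      (sg ((o.2 : ℕ) < N ∨ ((o.2 : ℕ) = N ∧ (o.1 : ℕ) + 1 < N)) : ℤ) *
      (sg ((x.2 : ℕ) < N ∨ ((x.2 : ℕ) = N ∧ (x.1 : ℕ) ≤ N)) : ℤ) *
      kast (holed (2 * N) (ee2 N hN) (eo1 N hN)) (cO (2 * N) o) (cE (2 * N) x) := by
  rw [kast_val]
  obtain ⟨⟨s', hs'⟩, ⟨k', hk'⟩⟩ := o
  obtain ⟨⟨s, hs⟩, ⟨i, hi⟩⟩ := x
  simp only [ee2, eo1, eoe, eee, Prod.mk.injEq, Fin.mk.injEq, ne_eq, not_and, KI, sg,
    Fin.mk_lt_mk] at *
  split_ifs <;> first | (exfalso; omega) | norm_num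

end even

section odd

variable (N : ℕ) (hN : 1 ≤ N)

/-- the cell `(-1,-1)` -/
def oe2 : E (2 * N + 1) := (⟨N, by omega⟩, ⟨N, by omega⟩)
/-- the cell `(0,1)` -/
def oo1 : O (2 * N + 1) := (⟨N + 1, by omega⟩, ⟨N + 1, by omega⟩)
/-- the cell `(-1,0)` -/
def ooe : O (2 * N + 1) := (⟨N, by omega⟩, ⟨N + 1, by omega⟩)
/-- the cell `(0,0)` -/
def oee : E (2 * N + 1) := (⟨N + 1, by omega⟩, ⟨N, by omega⟩)

theorem gauge_odd (o : O (2 * N + 1)) (x : E (2 * N + 1)) (ho : o ≠ oo1 N hN) (hx : x ≠ oe2 N hN) :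
    (if o = ooe N hN ∧ x = oee N hN then -1 else - KI (2 * N + 1) o x) =
      ((- sg ((o.2 : ℕ) % 2 = 1) * sg ((o.2 : ℕ) ≤ N) : ℤˣ) : ℤ) *
      ((sg ((x.2 : ℕ) % 2 = 1) * sg ((x.2 : ℕ) ≤ N) : ℤˣ) : ℤ) *
      kast (holed (2 * N + 1) (oe2 N hN) (oo1 N hN)) (cO (2 * N + 1) o) (cE (2 * N + 1) x) := by
  rw [kast_val]
  obtain ⟨⟨s', hs'⟩, ⟨k', hk'⟩⟩ := o
  obtain ⟨⟨s, hs⟩, ⟨i, hi⟩⟩ := x
  simp only [oe2, oo1, ooe, oee, Prod.mk.injEq, Fin.mk.injEq, ne_eq, not_and, KI, sg,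
    Fin.mk_lt_mk] at *
  split_ifs <;> first | (exfalso; omega) | norm_num

end odd

end Pool.Agent.Q139.Aztec
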