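import Pool.Agent.Q139.Aztec.Coeff
import Pool.Agent.Helper848.AztecDet

namespace Pool.Agent.Q139.Aztec

open Polynomial Finset Pool.Agent.Helper848.AztecDet

theorem sum_only_even {M : Type*} [AddCommMonoid M] (F : ℕ → M) (a b : ℕ)
    (h : ∀ k ∈ Ico a b, Odd k → F k = 0) :
    ∑ k ∈ Ico a b, F k = ∑ r ∈ Ico ((a + 1) / 2) ((b + 1) / 2), F (2 * r) := by
  symm
  refine Finset.sum_of_injOn (fun r => 2 * r) ?_ ?_ ?_ ?_
  · intro r _ s _ hrs
    simp only at hrs
    omega
  · intro r hr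
    simp only [coe_Ico, Set.mem_Ico] at hr ⊢
    omega
  · intro k hk hk2
    apply h k hk
    rw [mem_Ico] at hk
    rw [← Nat.not_even_iff_odd]
    rintro ⟨r, hr⟩
    apply hk2
    refine ⟨r, ?_, ?_⟩
    · simp only [coe_Ico, Set.mem_Ico]
      omega
    · simp only; omega
  · intro r _; rfl

theorem sum_only_odd {M : Type*} [AddCommMonoid M] (F : ℕ → M) (a b : ℕ)
    (h : ∀ k ∈ Ico a b, Even k → F k = 0) :
    ∑ k ∈ Ico a b, F k = ∑ r ∈ Ico (a / 2) (b / 2), F (2 * r + 1) := by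
  symm
  refine Finset.sum_of_injOn (fun r => 2 * r + 1) ?_ ?_ ?_ ?_
  · intro r _ s _ hrs
    simp only at hrs
    omega
  · intro r hr
    simp only [coe_Ico, Set.mem_Ico] at hr ⊢
    omega
  · intro k hk hk2
    apply h k hk
    rw [mem_Ico] at hk
    rw [← Nat.not_odd_iff_even]
    rintro ⟨r, hr⟩
    apply hk2
    refine ⟨r, ?_, ?_⟩
    · simp only [coe_Ico, Set.mem_Ico]
      omega
    · simp only; omega
  · intro r _; rfl

theorem G_coeff_lt (n : ℕ) (γ : ℕ → ℚ) (s0 s c : ℕ) (h : s < s0) :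
    (G n γ s0 s).coeff c = (-1) ^ (s0 - 1 - s) * ∑ k ∈ Ico s0 (n + 1),
      γ k * (pp (k + s - s0) (n + s0 - 1 - s - k)).coeff c := by
  unfold G pp
  rw [if_pos h, show ((-1) ^ (s0 - 1 - s) : ℚ[X]) = C ((-1) ^ (s0 - 1 - s)) from by simp,
    coeff_C_mul, finsetSum_coeff]
  simp only [coeff_C_mul]

theorem G_coeff_ge (n : ℕ) (γ : ℕ → ℚ) (s0 s c : ℕ) (h : s0 ≤ s) :
    (G n γ s0 s).coeff c = (-1) ^ (s - s0) * ∑ k ∈ Ico 0 s0,
      γ k * (pp (k + (s - s0)) (n - 1 - k - (s - s0))).coeff c := by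
  unfold G pp
  rw [if_neg (not_lt.mpr h), show ((-1) ^ (s - s0) : ℚ[X]) = C ((-1) ^ (s - s0)) from by simp,
    coeff_C_mul, finsetSum_coeff, Finset.range_eq_Ico]
  simp only [coeff_C_mul]

/-- the coefficients of the expansion of `X^N` -/
noncomputable def cc (N r : ℕ) : ℚ := (1 / 4) ^ N * ((-1) ^ (N - r) * (N.choose r : ℚ))

theorem cc_S (N r : ℕ) (h : r ≤ N) : cc N r * ((-1) ^ (N - r) * S r (N - r)) = (1 / 4) ^ N * u N r := by
  rw [← choose_S N r h]
  unfold cc
  have := neg_one_sq (N - r)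
  linear_combination ((1 / 4 : ℚ) ^ N * (N.choose r : ℚ) * S r (N - r)) * this

theorem S_symm (a b : ℕ) : S a b = S b a := by
  unfold S
  rw [Nat.add_comm b a, Nat.choose_symm_add]
  ring

/-- the weights of the half sum -/
noncomputable def ff (N i : ℕ) : ℚ := ((N : ℚ) - i) / (i + 1) * u N i

theorem pp_even' (N r : ℕ) (h : r ≤ N) : (pp (2 * r) (2 * (N - r))).coeff N = (-1) ^ (N - r) * S r (N - r) := by
  have h3 := pp_even (N - r) r
  rwa [show r + (N - r) = N from by omega] at h3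

/-- even order -/
noncomputable def ge (N k : ℕ) : ℚ := if Even k then cc N (k / 2) else 0

/-- odd order -/
noncomputable def go (N k : ℕ) : ℚ := if Even k then - (1 / 2) * cc N (k / 2) else 1 / 2 * cc N (k / 2)

theorem ge_even (N r : ℕ) : ge N (2 * r) = cc N r := by
  unfold ge
  rw [if_pos (by simp), show 2 * r / 2 = r from by omega]

theorem ge_odd (N k : ℕ) (h : Odd k) : ge N k = 0 := by
  unfold ge
  rw [if_neg (Nat.not_even_iff_odd.mpr h)]

theorem go_even (N r : ℕ) : go N (2 * r) = - (1 / 2) * cc N r := by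
  unfold go
  rw [if_pos (by simp), show 2 * r / 2 = r from by omega]

theorem go_odd (N r : ℕ) : go N (2 * r + 1) = 1 / 2 * cc N r := by
  unfold go
  rw [if_neg (by simp), show (2 * r + 1) / 2 = r from by omega]

theorem ge_expand (N : ℕ) :
    ∑ k ∈ range (2 * N + 1), C (ge N k) * ((1 + X) ^ k * (1 - X) ^ (2 * N - k) : ℚ[X]) = X ^ N := by
  rw [Finset.range_eq_Ico, sum_only_even _ _ _ (fun k _ hk => by rw [ge_odd N k hk]; simp),
    show (0 + 1) / 2 = 0 from rfl, show (2 * N + 1 + 1) / 2 = N + 1 from by omega,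
    ← Finset.range_eq_Ico, X_pow_expand]
  refine Finset.sum_congr rfl fun r _ => ?_
  rw [ge_even]
  unfold cc pp
  rw [show 2 * N - 2 * r = 2 * (N - r) from by omega]

theorem sum_pairs {M : Type*} [AddCommMonoid M] (F : ℕ → M) (N : ℕ) :
    ∑ k ∈ range (2 * N), F k = ∑ r ∈ range N, (F (2 * r) + F (2 * r + 1)) := by
  induction N with
  | zero => simp
  | succ N ih =>
    rw [show 2 * (N + 1) = 2 * N + 1 + 1 from by ring, Finset.sum_range_succ, Finset.sum_range_succ,
      ih, Finset.sum_range_succ, add_assoc]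

theorem go_expand (N : ℕ) :
    ∑ k ∈ range (2 * N + 1 + 1), C (go N k) * ((1 + X) ^ k * (1 - X) ^ (2 * N + 1 - k) : ℚ[X]) =
      X ^ (N + 1) := by
  rw [show 2 * N + 1 + 1 = 2 * (N + 1) from by ring, sum_pairs, pow_succ, X_pow_expand,
    Finset.sum_mul]
  refine Finset.sum_congr rfl fun r hr => ?_
  rw [mem_range] at hr
  rw [go_even, go_odd, show 2 * N + 1 - 2 * r = 2 * (N - r) + 1 from by omega,
    show 2 * N + 1 - (2 * r + 1) = 2 * (N - r) from by omega]
  have h1 : (C (- (1 / 2) * cc N r) : ℚ[X]) = - (C (1 / 2) * C (cc N r)) := by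
    rw [← C_mul, ← C_neg]; congr 1; ring
  have h2 : (C (1 / 2 * cc N r) : ℚ[X]) = C (1 / 2) * C (cc N r) := by rw [← C_mul]
  rw [h1, h2, pow_succ, pow_succ]
  have h3 : (C (1 / 2) : ℚ[X]) * 2 = 1 := by
    rw [show (2 : ℚ[X]) = C 2 from rfl, ← C_mul]; norm_num
  unfold pp
  change _ = C (cc N r) * _ * X
  linear_combination ((1 + X) ^ (2 * r) * (1 - X) ^ (2 * (N - r)) * X * C (cc N r)) * h3

/-! ### even order -/

theorem e1 (N : ℕ) (hN : 1 ≤ N) : (G (2 * N) (ge N) N (N + 1)).coeff N =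
    (1 / 4) ^ N / 2 * ∑ i ∈ Ico (N / 2) N, ff N i := by
  rw [G_coeff_ge _ _ _ _ _ (by omega), sum_only_even _ _ _ (fun k _ hk => by rw [ge_odd N k hk]; simp),
    show (0 + 1) / 2 = 0 from rfl, show N + 1 - N = 1 from by omega, pow_one, Finset.mul_sum,
    Finset.mul_sum]
  have hre := Finset.sum_Ico_reflect (fun i => (1 / 4) ^ N / 2 * ff N i) 0 (m := (N + 1) / 2)
    (n := N - 1) (by omega)
  rw [show N - 1 + 1 - (N + 1) / 2 = N / 2 from by omega, show N - 1 + 1 - 0 = N from by omega] at hre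
  rw [← hre]
  refine Finset.sum_congr rfl fun r hr => ?_
  rw [mem_Ico] at hr
  have hc : (pp (2 * r + 1) (2 * N - 1 - 2 * r - 1)).coeff N =
      (-1) ^ (N - 1 - r) * S (r + 1) (N - 1 - r) / 2 := by
    rw [show 2 * N - 1 - 2 * r - 1 = 2 * (N - 1 - r) from by omega,
      pp_half_even _ _ _ (by omega) (by simp)]
    have h3 := pp_even (N - 1 - r) (r + 1)
    rw [show r + 1 + (N - 1 - r) = N from by omega] at h3
    rw [show 2 * r + 1 + 1 = 2 * (r + 1) from by ring, h3]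
  rw [ge_even, hc]
  have h4 : ff N (N - 1 - r) = (N.choose r : ℚ) * S (r + 1) (N - 1 - r) := by
    unfold ff
    rw [← choose_S' N (N - 1 - r) (by omega), S_symm]
    rw [show N - 1 - r + 1 = N - r from by omega, Nat.choose_symm (by omega),
      show N - (N - 1 - r) = r + 1 from by omega]
  rw [h4]
  unfold cc
  obtain ⟨j, hj⟩ : ∃ j, N - r = j + 1 := ⟨N - r - 1, by omega⟩
  rw [hj, show N - 1 - r = j from by omega]
  have := neg_one_sq j
  rw [pow_succ]
  linear_combination ((1 / 4 : ℚ) ^ N * (N.choose r : ℚ) * S (r + 1) j / 2) * this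

theorem e2 (N : ℕ) : (G (2 * N) (ge N) (N + 1) N).coeff N =
    (1 / 4) ^ N / 2 * ∑ r ∈ Ico ((N + 2) / 2) (N + 1), u N r := by
  rw [G_coeff_lt _ _ _ _ _ (by omega), sum_only_even _ _ _ (fun k _ hk => by rw [ge_odd N k hk]; simp),
    show N + 1 - 1 - N = 0 from by omega, pow_zero, one_mul, Finset.mul_sum,
    show (N + 1 + 1) / 2 = (N + 2) / 2 from rfl, show (2 * N + 1 + 1) / 2 = N + 1 from by omega]
  refine Finset.sum_congr rfl fun r hr => ?_
  rw [mem_Ico] at hr
  have hc : (pp (2 * r + N - (N + 1)) (2 * N + (N + 1) - 1 - N - 2 * r)).coeff N =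
      (-1) ^ (N - r) * S r (N - r) / 2 := by
    rw [show 2 * r + N - (N + 1) = 2 * r - 1 from by omega,
      show 2 * N + (N + 1) - 1 - N - 2 * r = 2 * (N - r) from by omega,
      pp_half_even _ _ _ (by omega) (by simp), show 2 * r - 1 + 1 = 2 * r from by omega,
      pp_even' N r (by omega)]
  rw [ge_even, hc]
  have := cc_S N r (by omega)
  linear_combination this / 2

theorem e3 (N : ℕ) (hN : 1 ≤ N) : (G (2 * N) (ge N) (N + 1) (N + 1)).coeff N =
    (1 / 4) ^ N / 2 * ∑ r ∈ range ((N + 2) / 2), u N r := by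
  rw [G_coeff_ge _ _ _ _ _ le_rfl, sum_only_even _ _ _ (fun k _ hk => by rw [ge_odd N k hk]; simp),
    Nat.sub_self, pow_zero, one_mul, Finset.mul_sum,
    show (N + 1 + 1) / 2 = (N + 2) / 2 from rfl, show (0 + 1) / 2 = 0 from rfl, Finset.range_eq_Ico]
  refine Finset.sum_congr rfl fun r hr => ?_
  rw [mem_Ico] at hr
  have hc : (pp (2 * r + 0) (2 * N - 1 - 2 * r - 0)).coeff N =
      (-1) ^ (N - r) * S r (N - r) / 2 := by
    rw [add_zero, Nat.sub_zero,
      pp_half_odd _ _ _ (by omega) (by rw [Nat.odd_iff]; omega),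
      show 2 * N - 1 - 2 * r + 1 = 2 * (N - r) from by omega,
      pp_even' N r (by omega)]
  rw [ge_even, hc]
  have := cc_S N r (by omega)
  linear_combination this / 2

theorem e4 (N : ℕ) (hN : 1 ≤ N) : (G (2 * N) (ge N) N N).coeff N =
    (1 / 4) ^ N / 2 * ∑ r ∈ range ((N + 1) / 2), u N r := by
  rw [G_coeff_ge _ _ _ _ _ le_rfl, sum_only_even _ _ _ (fun k _ hk => by rw [ge_odd N k hk]; simp),
    Nat.sub_self, pow_zero, one_mul, Finset.mul_sum,
    show (0 + 1) / 2 = 0 from rfl, Finset.range_eq_Ico]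
  refine Finset.sum_congr rfl fun r hr => ?_
  rw [mem_Ico] at hr
  have hc : (pp (2 * r + 0) (2 * N - 1 - 2 * r - 0)).coeff N =
      (-1) ^ (N - r) * S r (N - r) / 2 := by
    rw [add_zero, Nat.sub_zero,
      pp_half_odd _ _ _ (by omega) (by rw [Nat.odd_iff]; omega),
      show 2 * N - 1 - 2 * r + 1 = 2 * (N - r) from by omega,
      pp_even' N r (by omega)]
  rw [ge_even, hc]
  have := cc_S N r (by omega)
  linear_combination this / 2

/-! ### odd order -/

theorem o1 (N : ℕ) : (G (2 * N + 1) (go N) (N + 2) N).coeff N =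
    - ((1 / 4) ^ N / 2 * ∑ i ∈ Ico ((N + 1) / 2) N, ff N i) := by
  rw [G_coeff_lt _ _ _ _ _ (by omega), sum_only_even _ _ _ (fun k hk hodd => ?_),
    show N + 2 - 1 - N = 1 from by omega, pow_one,
    show (N + 2 + 1) / 2 = (N + 1) / 2 + 1 from by omega,
    show (2 * N + 1 + 1 + 1) / 2 = N + 1 from by omega, ← Finset.sum_Ico_add' _ _ _ 1, Finset.mul_sum,
    Finset.mul_sum, ← Finset.sum_neg_distrib]
  · refine Finset.sum_congr rfl fun i hi => ?_
    rw [mem_Ico] at hi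
    have hc : (pp (2 * (i + 1) + N - (N + 2)) (2 * N + 1 + (N + 2) - 1 - N - 2 * (i + 1))).coeff N =
        (-1) ^ (N - i) * S i (N - i) := by
      rw [show 2 * (i + 1) + N - (N + 2) = 2 * i from by omega,
        show 2 * N + 1 + (N + 2) - 1 - N - 2 * (i + 1) = 2 * (N - i) from by omega,
        pp_even' N i (by omega)]
    rw [go_even, hc]
    unfold ff
    rw [← choose_S' N i (by omega)]
    unfold cc
    obtain ⟨j, hj⟩ : ∃ j, N - i = j + 1 := ⟨N - i - 1, by omega⟩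
    rw [hj, show N - (i + 1) = j from by omega]
    have := neg_one_sq j
    rw [pow_succ]
    linear_combination (- (1 / 4 : ℚ) ^ N * (N.choose (i + 1) : ℚ) * S i (j + 1) / 2) * this
  · rw [mem_Ico] at hk
    rw [pp_odd _ _ _ (by omega), mul_zero]
    rw [Nat.odd_iff] at hodd ⊢
    omega

theorem o2 (N : ℕ) : (G (2 * N + 1) (go N) (N + 1) (N + 1)).coeff N =
    - ((1 / 4) ^ N / 2 * ∑ r ∈ range ((N + 2) / 2), u N r) := by
  rw [G_coeff_ge _ _ _ _ _ le_rfl, sum_only_even _ _ _ (fun k hk hodd => ?_),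
    Nat.sub_self, pow_zero, one_mul, Finset.mul_sum,
    show (N + 1 + 1) / 2 = (N + 2) / 2 from rfl, show (0 + 1) / 2 = 0 from rfl, Finset.range_eq_Ico,
    ← Finset.sum_neg_distrib]
  · refine Finset.sum_congr rfl fun r hr => ?_
    rw [mem_Ico] at hr
    have hc : (pp (2 * r + 0) (2 * N + 1 - 1 - 2 * r - 0)).coeff N =
        (-1) ^ (N - r) * S r (N - r) := by
      rw [add_zero, Nat.sub_zero, show 2 * N + 1 - 1 - 2 * r = 2 * (N - r) from by omega,
        pp_even' N r (by omega)]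
    rw [go_even, hc]
    have := cc_S N r (by omega)
    linear_combination (-1 / 2) * this
  · rw [mem_Ico] at hk
    rw [pp_odd _ _ _ (by omega), mul_zero]
    rw [Nat.odd_iff] at hodd ⊢
    omega

theorem o3 (N : ℕ) : (G (2 * N + 1) (go N) (N + 1) N).coeff N =
    (1 / 4) ^ N / 2 * ∑ r ∈ Ico ((N + 1) / 2) (N + 1), u N r := by
  rw [G_coeff_lt _ _ _ _ _ (by omega), sum_only_odd _ _ _ (fun k hk heven => ?_),
    show N + 1 - 1 - N = 0 from by omega, pow_zero, one_mul, Finset.mul_sum,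
    show (2 * N + 1 + 1) / 2 = N + 1 from by omega]
  · refine Finset.sum_congr rfl fun r hr => ?_
    rw [mem_Ico] at hr
    have hc : (pp (2 * r + 1 + N - (N + 1)) (2 * N + 1 + (N + 1) - 1 - N - (2 * r + 1))).coeff N =
        (-1) ^ (N - r) * S r (N - r) := by
      rw [show 2 * r + 1 + N - (N + 1) = 2 * r from by omega,
        show 2 * N + 1 + (N + 1) - 1 - N - (2 * r + 1) = 2 * (N - r) from by omega,
        pp_even' N r (by omega)]
    rw [go_odd, hc]
    have := cc_S N r (by omega)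
    linear_combination this / 2
  · rw [mem_Ico] at hk
    rw [pp_odd _ _ _ (by omega), mul_zero]
    rw [Nat.even_iff] at heven
    rw [Nat.odd_iff]
    omega

theorem o4 (N : ℕ) : (G (2 * N + 1) (go N) (N + 2) (N + 1)).coeff N =
    (1 / 4) ^ N / 2 * ∑ r ∈ Ico ((N + 2) / 2) (N + 1), u N r := by
  rw [G_coeff_lt _ _ _ _ _ (by omega), sum_only_odd _ _ _ (fun k hk heven => ?_),
    show N + 2 - 1 - (N + 1) = 0 from by omega, pow_zero, one_mul, Finset.mul_sum,
    show (2 * N + 1 + 1) / 2 = N + 1 from by omega]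
  · refine Finset.sum_congr rfl fun r hr => ?_
    rw [mem_Ico] at hr
    have hc : (pp (2 * r + 1 + (N + 1) - (N + 2)) (2 * N + 1 + (N + 2) - 1 - (N + 1) - (2 * r + 1))).coeff N =
        (-1) ^ (N - r) * S r (N - r) := by
      rw [show 2 * r + 1 + (N + 1) - (N + 2) = 2 * r from by omega,
        show 2 * N + 1 + (N + 2) - 1 - (N + 1) - (2 * r + 1) = 2 * (N - r) from by omega,
        pp_even' N r (by omega)]
    rw [go_odd, hc]
    have := cc_S N r (by omega)
    linear_combination this / 2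
  · rw [mem_Ico] at hk
    rw [pp_odd _ _ _ (by omega), mul_zero]
    rw [Nat.even_iff] at heven
    rw [Nat.odd_iff]
    omega

/-! ### evaluation of the sums -/

theorem sum_ff (N a : ℕ) (h : a ≤ N) : ∑ i ∈ Ico a N, ff N i =
    (2 * ((N : ℚ) - a) + 1) * u N a - ∑ i ∈ Ico a (N + 1), u N i := sum_f N a h

/-- `N = 2 m`: the lower sum -/
theorem low_even (m : ℕ) : ∑ r ∈ range m, u (2 * m) r = (4 ^ (2 * m) - u (2 * m) m) / 2 := by
  have h1 := sum_split (2 * m) m (by omega)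
  have h2 := sum_u_reflect (2 * m) m (by omega)
  rw [show 2 * m + 1 - m = m + 1 from by omega, Finset.sum_range_succ] at h2
  linarith

theorem low_even' (m : ℕ) : ∑ r ∈ range (m + 1), u (2 * m) r = (4 ^ (2 * m) + u (2 * m) m) / 2 := by
  rw [Finset.sum_range_succ, low_even]; ring

theorem up_even (m : ℕ) : ∑ r ∈ Ico m (2 * m + 1), u (2 * m) r = (4 ^ (2 * m) + u (2 * m) m) / 2 := by
  have h1 := sum_split (2 * m) m (by omega)
  have h2 := low_even m
  linarith

theorem up_even' (m : ℕ) : ∑ r ∈ Ico (m + 1) (2 * m + 1), u (2 * m) r =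
    (4 ^ (2 * m) - u (2 * m) m) / 2 := by
  have h1 := sum_split (2 * m) (m + 1) (by omega)
  have h2 := low_even' m
  linarith

theorem low_odd (m : ℕ) : ∑ r ∈ range (m + 1), u (2 * m + 1) r = 4 ^ (2 * m + 1) / 2 := by
  have h1 := sum_split (2 * m + 1) (m + 1) (by omega)
  have h2 := sum_u_reflect (2 * m + 1) (m + 1) (by omega)
  rw [show 2 * m + 1 + 1 - (m + 1) = m + 1 from by omega] at h2
  linarith

theorem up_odd (m : ℕ) : ∑ r ∈ Ico (m + 1) (2 * m + 1 + 1), u (2 * m + 1) r = 4 ^ (2 * m + 1) / 2 := by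
  have h1 := sum_split (2 * m + 1) (m + 1) (by omega)
  have h2 := low_odd m
  linarith

theorem up_odd' (m : ℕ) : ∑ r ∈ Ico m (2 * m + 1 + 1), u (2 * m + 1) r =
    4 ^ (2 * m + 1) / 2 + u (2 * m + 1) m := by
  rw [Finset.sum_eq_sum_Ico_succ_bot (by omega), up_odd]; ring

/-- the square of the normalised central binomial coefficient -/
noncomputable def xx (m : ℕ) : ℚ := ((m.centralBinom : ℚ) / 4 ^ m) ^ 2

theorem u_even_mid (m : ℕ) : u (2 * m) m = 4 ^ (2 * m) * xx m := by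
  unfold u xx
  rw [show 2 * m - m = m from by omega, pow_mul', div_pow]
  have : (4 : ℚ) ^ m ≠ 0 := by positivity
  field_simp

theorem u_odd_mid (m : ℕ) : u (2 * m + 1) m = 4 ^ (2 * m + 1) * ((2 * m + 1) / (2 * (m + 1)) * xx m) := by
  unfold u xx
  rw [show 2 * m + 1 - m = m + 1 from by omega, cb_succ, pow_succ, pow_mul', div_pow]
  have : (4 : ℚ) ^ m ≠ 0 := by positivity
  field_simp
  ring

theorem u_odd_mid' (m : ℕ) : u (2 * m + 1) (m + 1) =
    4 ^ (2 * m + 1) * ((2 * m + 1) / (2 * (m + 1)) * xx m) := by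
  rw [← u_odd_mid, ← u_symm _ _ (by omega)]
  congr 1
  omega

theorem four_cancel (N : ℕ) : (1 / 4 : ℚ) ^ N * 4 ^ N = 1 := by rw [← mul_pow]; norm_num

theorem ev_e1 (m : ℕ) (hm : 1 ≤ m) : (G (2 * (2 * m)) (ge (2 * m)) (2 * m) (2 * m + 1)).coeff (2 * m) =
    ((4 * m + 1) * xx m - 1) / 4 := by
  rw [e1 _ (by omega), show 2 * m / 2 = m from by omega, sum_ff _ _ (by omega), up_even, u_even_mid]
  have h := four_cancel (2 * m)
  push_cast
  linear_combination (((4 * m + 1) * xx m - 1) / 4) * h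

theorem ev_e2 (m : ℕ) : (G (2 * (2 * m)) (ge (2 * m)) (2 * m + 1) (2 * m)).coeff (2 * m) =
    (1 - xx m) / 4 := by
  rw [e2, show (2 * m + 2) / 2 = m + 1 from by omega, up_even', u_even_mid]
  have h := four_cancel (2 * m)
  linear_combination ((1 - xx m) / 4) * h

theorem ev_e3 (m : ℕ) (hm : 1 ≤ m) :
    (G (2 * (2 * m)) (ge (2 * m)) (2 * m + 1) (2 * m + 1)).coeff (2 * m) = (1 + xx m) / 4 := by
  rw [e3 _ (by omega), show (2 * m + 2) / 2 = m + 1 from by omega, low_even', u_even_mid]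
  have h := four_cancel (2 * m)
  linear_combination ((1 + xx m) / 4) * h

theorem ev_e4 (m : ℕ) (hm : 1 ≤ m) : (G (2 * (2 * m)) (ge (2 * m)) (2 * m) (2 * m)).coeff (2 * m) =
    (1 - xx m) / 4 := by
  rw [e4 _ (by omega), show (2 * m + 1) / 2 = m from by omega, low_even, u_even_mid]
  have h := four_cancel (2 * m)
  linear_combination ((1 - xx m) / 4) * h

theorem od_e1 (m : ℕ) :
    (G (2 * (2 * m + 1)) (ge (2 * m + 1)) (2 * m + 1) (2 * m + 1 + 1)).coeff (2 * m + 1) =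
    (2 * m + 1) * xx m / 2 - 1 / 4 := by
  rw [e1 _ (by omega), show (2 * m + 1) / 2 = m from by omega, sum_ff _ _ (by omega), up_odd',
    u_odd_mid]
  have h := four_cancel (2 * m + 1)
  have h2 : (2 * ((m : ℚ) + 1)) ≠ 0 := by positivity
  have h3 : (2 * ((m : ℚ) + 1)) * ((2 * m + 1) / (2 * (m + 1)) * xx m) = (2 * m + 1) * xx m := by
    field_simp
  push_cast
  linear_combination ((2 * m + 1) * xx m / 2 - 1 / 4) * h +
    ((1 / 4 : ℚ) ^ (2 * m + 1) * 4 ^ (2 * m + 1) / 2) * h3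

theorem od_e2 (m : ℕ) :
    (G (2 * (2 * m + 1)) (ge (2 * m + 1)) (2 * m + 1 + 1) (2 * m + 1)).coeff (2 * m + 1) = 1 / 4 := by
  rw [e2, show (2 * m + 1 + 2) / 2 = m + 1 from by omega, up_odd]
  have h := four_cancel (2 * m + 1)
  linear_combination h / 4

theorem od_e3 (m : ℕ) :
    (G (2 * (2 * m + 1)) (ge (2 * m + 1)) (2 * m + 1 + 1) (2 * m + 1 + 1)).coeff (2 * m + 1) = 1 / 4 := by
  rw [e3 _ (by omega), show (2 * m + 1 + 2) / 2 = m + 1 from by omega, low_odd]
  have h := four_cancel (2 * m + 1)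
  linear_combination h / 4

theorem od_e4 (m : ℕ) :
    (G (2 * (2 * m + 1)) (ge (2 * m + 1)) (2 * m + 1) (2 * m + 1)).coeff (2 * m + 1) = 1 / 4 := by
  rw [e4 _ (by omega), show (2 * m + 1 + 1) / 2 = m + 1 from by omega, low_odd]
  have h := four_cancel (2 * m + 1)
  linear_combination h / 4

theorem ev_o1 (m : ℕ) : (G (2 * (2 * m) + 1) (go (2 * m)) (2 * m + 2) (2 * m)).coeff (2 * m) =
    - (((4 * m + 1) * xx m - 1) / 4) := by
  rw [o1 _, show (2 * m + 1) / 2 = m from by omega, sum_ff _ _ (by omega), up_even, u_even_mid]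
  have h := four_cancel (2 * m)
  push_cast
  linear_combination (-((4 * m + 1) * xx m - 1) / 4) * h

theorem ev_o2 (m : ℕ) : (G (2 * (2 * m) + 1) (go (2 * m)) (2 * m + 1) (2 * m + 1)).coeff (2 * m) =
    - ((1 + xx m) / 4) := by
  rw [o2, show (2 * m + 2) / 2 = m + 1 from by omega, low_even', u_even_mid]
  have h := four_cancel (2 * m)
  linear_combination (-(1 + xx m) / 4) * h

theorem ev_o3 (m : ℕ) : (G (2 * (2 * m) + 1) (go (2 * m)) (2 * m + 1) (2 * m)).coeff (2 * m) =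
    (1 + xx m) / 4 := by
  rw [o3, show (2 * m + 1) / 2 = m from by omega, up_even, u_even_mid]
  have h := four_cancel (2 * m)
  linear_combination ((1 + xx m) / 4) * h

theorem ev_o4 (m : ℕ) : (G (2 * (2 * m) + 1) (go (2 * m)) (2 * m + 2) (2 * m + 1)).coeff (2 * m) =
    (1 - xx m) / 4 := by
  rw [o4, show (2 * m + 2) / 2 = m + 1 from by omega, up_even', u_even_mid]
  have h := four_cancel (2 * m)
  linear_combination ((1 - xx m) / 4) * h

theorem od_o1 (m : ℕ) :
    (G (2 * (2 * m + 1) + 1) (go (2 * m + 1)) (2 * m + 1 + 2) (2 * m + 1)).coeff (2 * m + 1) =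
    - ((2 * m + 1) ^ 2 * xx m / (4 * (m + 1)) - 1 / 4) := by
  rw [o1 _, show (2 * m + 1 + 1) / 2 = m + 1 from by omega, sum_ff _ _ (by omega), up_odd,
    u_odd_mid']
  have h := four_cancel (2 * m + 1)
  have h2 : ((m : ℚ) + 1) ≠ 0 := by positivity
  have h3 : (2 * (m : ℚ) + 1) * ((2 * m + 1) / (2 * (m + 1)) * xx m) =
      2 * ((2 * m + 1) ^ 2 * xx m / (4 * (m + 1))) := by
    field_simp
    ring
  push_cast
  linear_combination (-((2 * m + 1) ^ 2 * xx m / (4 * (m + 1)) - 1 / 4)) * h -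
    ((1 / 4 : ℚ) ^ (2 * m + 1) * 4 ^ (2 * m + 1) / 2) * h3

theorem od_o2 (m : ℕ) :
    (G (2 * (2 * m + 1) + 1) (go (2 * m + 1)) (2 * m + 1 + 1) (2 * m + 1 + 1)).coeff (2 * m + 1) =
      - (1 / 4) := by
  rw [o2, show (2 * m + 1 + 2) / 2 = m + 1 from by omega, low_odd]
  have h := four_cancel (2 * m + 1)
  linear_combination - h / 4

theorem od_o3 (m : ℕ) :
    (G (2 * (2 * m + 1) + 1) (go (2 * m + 1)) (2 * m + 1 + 1) (2 * m + 1)).coeff (2 * m + 1) = 1 / 4 := by
  rw [o3, show (2 * m + 1 + 1) / 2 = m + 1 from by omega, up_odd]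
  have h := four_cancel (2 * m + 1)
  linear_combination h / 4

theorem od_o4 (m : ℕ) :
    (G (2 * (2 * m + 1) + 1) (go (2 * m + 1)) (2 * m + 1 + 2) (2 * m + 1 + 1)).coeff (2 * m + 1) =
      1 / 4 := by
  rw [o4, show (2 * m + 1 + 2) / 2 = m + 1 from by omega, up_odd]
  have h := four_cancel (2 * m + 1)
  linear_combination h / 4

end Pool.Agent.Q139.Aztec
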