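import Pool.Agent.Q139.Aztec.Green
import Pool.Agent.Helper848.Kast

namespace Pool.Agent.Q139.Aztec

open Finset Pool.Agent.Helper848 Pool.Agent.Helper848.AztecDet

/-- The Aztec diamond of order `n`. The pair `(a, b)` stands for the closed unit square
`[a, a+1] × [b, b+1]`, whose centre is `(a + 1/2, b + 1/2)`; the condition says that the sum of the
absolute values of the coordinates of the centre is at most `n`. -/
noncomputable def aztec (n : ℕ) : Finset (ℤ × ℤ) :=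
  ((Finset.Icc (-(n : ℤ)) (n - 1)) ×ˢ (Finset.Icc (-(n : ℤ)) (n - 1))).filter
    fun p => |2 * p.1 + 1| + |2 * p.2 + 1| ≤ 2 * n

theorem abs_add_abs_le_iff (a b c : ℤ) :
    |a| + |b| ≤ c ↔ a + b ≤ c ∧ a - b ≤ c ∧ - a + b ≤ c ∧ - a - b ≤ c := by
  rcases abs_cases a with ⟨h1, h2⟩ | ⟨h1, h2⟩ <;> rcases abs_cases b with ⟨h3, h4⟩ | ⟨h3, h4⟩ <;>
    rw [h1, h3] <;> omega

theorem mem_aztec (n : ℕ) (p : ℤ × ℤ) : p ∈ aztec n ↔ |2 * p.1 + 1| + |2 * p.2 + 1| ≤ 2 * n := by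
  unfold aztec
  rw [mem_filter, mem_product, mem_Icc, mem_Icc, and_iff_right_iff_imp, abs_add_abs_le_iff]
  omega

/-- the position of an even cell -/
def cE (n : ℕ) (x : E n) : ℤ × ℤ := ((x.1 : ℤ) - (x.2 : ℕ) - 1, (x.1 : ℤ) + (x.2 : ℕ) - n)

/-- the position of an odd cell -/
def cO (n : ℕ) (o : O n) : ℤ × ℤ := ((o.1 : ℤ) - (o.2 : ℕ), (o.1 : ℤ) + (o.2 : ℕ) - n)

theorem cE_mem (n : ℕ) (x : E n) : cE n x ∈ aztec n := by
  rw [mem_aztec, abs_add_abs_le_iff]
  have h1 := x.1.2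
  have h2 := x.2.2
  simp only [cE]
  omega

theorem cO_mem (n : ℕ) (x : O n) : cO n x ∈ aztec n := by
  rw [mem_aztec, abs_add_abs_le_iff]
  have h1 := x.1.2
  have h2 := x.2.2
  simp only [cO]
  omega

theorem cE_inj (n : ℕ) : Function.Injective (cE n) := by
  rintro ⟨⟨a, ha⟩, ⟨b, hb⟩⟩ ⟨⟨c, hc⟩, ⟨d, hd⟩⟩ h
  simp only [cE, Prod.mk.injEq, Fin.mk.injEq] at h ⊢
  omega

theorem cO_inj (n : ℕ) : Function.Injective (cO n) := by
  rintro ⟨⟨a, ha⟩, ⟨b, hb⟩⟩ ⟨⟨c, hc⟩, ⟨d, hd⟩⟩ h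
  simp only [cO, Prod.mk.injEq, Fin.mk.injEq] at h ⊢
  omega

theorem cE_even (n : ℕ) (x : E n) : Even ((cE n x).1 + (cE n x).2 + ((n : ℤ) + 1)) := by
  refine ⟨(x.1 : ℕ), ?_⟩
  simp only [cE]
  ring

theorem cO_odd (n : ℕ) (x : O n) : ¬ Even ((cO n x).1 + (cO n x).2 + ((n : ℤ) + 1)) := by
  rw [Int.not_even_iff_odd]
  refine ⟨(x.1 : ℕ), ?_⟩
  simp only [cO]
  ring

theorem cE_surj (n : ℕ) (p : ℤ × ℤ) (hp : p ∈ aztec n) (he : Even (p.1 + p.2 + ((n : ℤ) + 1))) :
    ∃ x : E n, cE n x = p := by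
  rw [mem_aztec, abs_add_abs_le_iff] at hp
  obtain ⟨a, b⟩ := p
  obtain ⟨s, hs⟩ := he
  simp only at hp hs
  refine ⟨(⟨s.toNat, by omega⟩, ⟨(s - a - 1).toNat, by omega⟩), ?_⟩
  simp only [cE, Prod.mk.injEq]
  omega

theorem cO_surj (n : ℕ) (p : ℤ × ℤ) (hp : p ∈ aztec n) (he : ¬ Even (p.1 + p.2 + ((n : ℤ) + 1))) :
    ∃ x : O n, cO n x = p := by
  rw [mem_aztec, abs_add_abs_le_iff] at hp
  obtain ⟨a, b⟩ := p
  rw [Int.not_even_iff_odd] at he
  obtain ⟨s, hs⟩ := he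
  simp only at hp hs
  refine ⟨(⟨s.toNat, by omega⟩, ⟨(s - a).toNat, by omega⟩), ?_⟩
  simp only [cO, Prod.mk.injEq]
  omega

/-- the Aztec diamond with two cells removed -/
noncomputable def holed (n : ℕ) (e2 : E n) (o1 : O n) : Finset (ℤ × ℤ) := aztec n \ {cE n e2, cO n o1}

theorem cE_ne_cO (n : ℕ) (x : E n) (o : O n) : cE n x ≠ cO n o := by
  intro h
  have h1 := cE_even n x
  rw [h] at h1
  exact cO_odd n o h1

theorem cE_mem_holed (n : ℕ) (e2 : E n) (o1 : O n) (x : E n) : cE n x ∈ holed n e2 o1 ↔ x ≠ e2 := by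
  unfold holed
  rw [mem_sdiff, mem_insert, mem_singleton]
  simp only [cE_mem, true_and, not_or, (cE_inj n).eq_iff, cE_ne_cO, not_false_eq_true, and_true, ne_eq]

theorem cO_mem_holed (n : ℕ) (e2 : E n) (o1 : O n) (x : O n) : cO n x ∈ holed n e2 o1 ↔ x ≠ o1 := by
  unfold holed
  rw [mem_sdiff, mem_insert, mem_singleton]
  simp only [cO_mem, true_and, not_or, (cO_inj n).eq_iff, (cE_ne_cO n _ _).symm, not_false_eq_true,
    ne_eq]

theorem above_eq (n : ℕ) (e2 : E n) (o1 : O n) (x : E n) :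
    above (holed n e2 o1) (cE n x) + ((x.1 : ℕ) + if x.2 = e2.2 ∧ x.1 < e2.1 then 1 else 0) = n := by
  have h : (holed n e2 o1).filter (fun q => q.2 - q.1 = (cE n x).2 - (cE n x).1 ∧ (cE n x).1 < q.1) =
      (Finset.univ.filter (fun s : Fin (n + 1) => x.1 < s ∧ ¬ (x.2 = e2.2 ∧ s = e2.1))).image
        (fun s => cE n (s, x.2)) := by
    ext p
    rw [mem_filter, mem_image]
    constructor
    · rintro ⟨h1, h2, h3⟩
      have hpa : p ∈ aztec n := (mem_sdiff.mp h1).1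
      have hev : Even (p.1 + p.2 + ((n : ℤ) + 1)) := by
        refine ⟨p.1 + (x.2 : ℕ) + 1, ?_⟩
        simp only [cE] at h2
        linarith
      obtain ⟨y, rfl⟩ := cE_surj n p hpa hev
      have hy : y.2 = x.2 := by
        apply Fin.ext
        simp only [cE] at h2
        omega
      rw [cE_mem_holed] at h1
      refine ⟨y.1, ?_, by rw [← hy]⟩
      rw [mem_filter]
      refine ⟨mem_univ _, ?_, ?_⟩
      · rw [Fin.lt_def]
        simp only [cE, hy] at h3
        omega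
      · rintro ⟨h4, h5⟩
        apply h1
        exact Prod.ext h5 (hy.trans h4)
    · rintro ⟨s, hs, rfl⟩
      rw [mem_filter, Fin.lt_def] at hs
      refine ⟨?_, ?_, ?_⟩
      · rw [cE_mem_holed]
        intro hc
        apply hs.2.2
        rw [← hc]
        exact ⟨rfl, rfl⟩
      · simp only [cE]; ring
      · simp only [cE]
        have := hs.2.1
        omega
  have hinj : Function.Injective (fun s : Fin (n + 1) => cE n (s, x.2)) := by
    intro a b hab
    have := cE_inj n hab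
    exact (Prod.ext_iff.mp this).1
  unfold above
  rw [h, Finset.card_image_of_injective _ hinj]
  have hx := x.1.2
  by_cases hc : x.2 = e2.2 ∧ x.1 < e2.1
  · rw [if_pos hc]
    have h2 : (Finset.univ.filter (fun s : Fin (n + 1) => x.1 < s ∧ ¬ (x.2 = e2.2 ∧ s = e2.1))) =
        (Finset.Ioi x.1).erase e2.1 := by
      ext s
      simp only [mem_filter, mem_univ, true_and, mem_erase, mem_Ioi, hc.1, ne_eq]
      tauto
    rw [h2, Finset.card_erase_of_mem (by rw [mem_Ioi]; exact hc.2), Fin.card_Ioi]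
    have h3 := hc.2
    rw [Fin.lt_def] at h3
    have h4 := e2.1.2
    omega
  · rw [if_neg hc]
    have h2 : (Finset.univ.filter (fun s : Fin (n + 1) => x.1 < s ∧ ¬ (x.2 = e2.2 ∧ s = e2.1))) =
        (Finset.Ioi x.1) := by
      ext s
      simp only [mem_filter, mem_univ, true_and, mem_Ioi]
      constructor
      · exact fun h => h.1
      · intro h
        refine ⟨h, ?_⟩
        rintro ⟨h3, h4⟩
        apply hc
        rw [← h4]
        exact ⟨h3, h⟩
    rw [h2, Fin.card_Ioi]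
    omega

theorem below_eq (n : ℕ) (e2 : E n) (o1 : O n) (o : O n) :
    below (holed n e2 o1) (cO n o) + (if o.2 = o1.2 ∧ o1.1 < o.1 then 1 else 0) = o.1 := by
  have h : (holed n e2 o1).filter (fun q => q.2 - q.1 = (cO n o).2 - (cO n o).1 ∧ q.1 < (cO n o).1) =
      (Finset.univ.filter (fun s : Fin n => s < o.1 ∧ ¬ (o.2 = o1.2 ∧ s = o1.1))).image
        (fun s => cO n (s, o.2)) := by
    ext p
    rw [mem_filter, mem_image]
    constructor
    · rintro ⟨h1, h2, h3⟩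
      have hpa : p ∈ aztec n := (mem_sdiff.mp h1).1
      have hev : ¬ Even (p.1 + p.2 + ((n : ℤ) + 1)) := by
        rw [Int.not_even_iff_odd]
        refine ⟨p.1 + (o.2 : ℕ), ?_⟩
        simp only [cO] at h2
        linarith
      obtain ⟨y, rfl⟩ := cO_surj n p hpa hev
      have hy : y.2 = o.2 := by
        apply Fin.ext
        simp only [cO] at h2
        omega
      rw [cO_mem_holed] at h1
      refine ⟨y.1, ?_, by rw [← hy]⟩
      rw [mem_filter]
      refine ⟨mem_univ _, ?_, ?_⟩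
      · rw [Fin.lt_def]
        simp only [cO, hy] at h3
        omega
      · rintro ⟨h4, h5⟩
        apply h1
        exact Prod.ext h5 (hy.trans h4)
    · rintro ⟨s, hs, rfl⟩
      rw [mem_filter, Fin.lt_def] at hs
      refine ⟨?_, ?_, ?_⟩
      · rw [cO_mem_holed]
        intro hc
        apply hs.2.2
        rw [← hc]
        exact ⟨rfl, rfl⟩
      · simp only [cO]; ring
      · simp only [cO]
        have := hs.2.1
        omega
  have hinj : Function.Injective (fun s : Fin n => cO n (s, o.2)) := by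
    intro a b hab
    have := cO_inj n hab
    exact (Prod.ext_iff.mp this).1
  unfold below
  rw [h, Finset.card_image_of_injective _ hinj]
  have hx := o.1.2
  by_cases hc : o.2 = o1.2 ∧ o1.1 < o.1
  · rw [if_pos hc]
    have h2 : (Finset.univ.filter (fun s : Fin n => s < o.1 ∧ ¬ (o.2 = o1.2 ∧ s = o1.1))) =
        (Finset.Iio o.1).erase o1.1 := by
      ext s
      simp only [mem_filter, mem_univ, true_and, mem_erase, mem_Iio, hc.1, ne_eq]
      tauto
    rw [h2, Finset.card_erase_of_mem (by rw [mem_Iio]; exact hc.2), Fin.card_Iio]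
    have h3 := hc.2
    rw [Fin.lt_def] at h3
    omega
  · rw [if_neg hc]
    have h2 : (Finset.univ.filter (fun s : Fin n => s < o.1 ∧ ¬ (o.2 = o1.2 ∧ s = o1.1))) =
        (Finset.Iio o.1) := by
      ext s
      simp only [mem_filter, mem_univ, true_and, mem_Iio]
      constructor
      · exact fun h => h.1
      · intro h
        refine ⟨h, ?_⟩
        rintro ⟨h3, h4⟩
        apply hc
        rw [← h4]
        exact ⟨h3, h⟩
    rw [h2, Fin.card_Iio]
    omega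

theorem adj_iff (n : ℕ) (o : O n) (x : E n) : Adj (cE n x) (cO n o) ↔
    ((x.1 : ℕ) = o.1 ∨ (x.1 : ℕ) = o.1 + 1) ∧ ((x.2 : ℕ) = o.2 ∨ (x.2 : ℕ) + 1 = o.2) := by
  unfold Adj cE cO
  simp only
  omega

theorem up_iff (n : ℕ) (o : O n) (x : E n) :
    (cO n o).2 - (cO n o).1 = (cE n x).2 - (cE n x).1 + 1 ↔ (x.2 : ℕ) + 1 = o.2 := by
  unfold cE cO
  simp only
  omega

/-- integer version -/
def KI (n : ℕ) (o : O n) (x : E n) : ℤ :=
  if (x.2 : ℕ) = o.2 ∧ ((x.1 : ℕ) = o.1 ∨ (x.1 : ℕ) = o.1 + 1) then 1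
  else if (x.2 : ℕ) + 1 = o.2 ∧ (x.1 : ℕ) = o.1 + 1 then -1
  else if (x.2 : ℕ) + 1 = o.2 ∧ (x.1 : ℕ) = o.1 then 1 else 0

theorem KI_cast (n : ℕ) (o : O n) (x : E n) : ((KI n o x : ℤ) : ℚ) = K0 n o x := by
  unfold KI K0
  rw [Matrix.of_apply]
  split_ifs <;> first | (exfalso; omega) | norm_num

theorem tilings_main (n : ℕ) (e2 : E n) (o1 : O n) (φ : {x : E n // x ≠ e2} ≃ {o : O n // o ≠ o1})
    (α β : {x : E n // x ≠ e2} → ℤˣ) (M : Matrix {x : E n // x ≠ e2} {x : E n // x ≠ e2} ℤ)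
    (hM : ∀ i j, M i j = α i * β j * kast (holed n e2 o1) (cO n (φ i)) (cE n j)) :
    numTilings (holed n e2 o1) = M.det.natAbs := by
  refine numTilings_eq ((n : ℤ) + 1) (holed n e2 o1) (fun i : {x : E n // x ≠ e2} => cE n i.1)
    (fun i : {x : E n // x ≠ e2} => cO n (φ i).1) ?_ ?_ ?_ ?_ α β M hM
  · intro a b h
    exact Subtype.ext (cE_inj n h)
  · intro a b h
    exact φ.injective (Subtype.ext (cO_inj n h))
  · intro p
    constructor
    · rintro ⟨i, rfl⟩
      exact ⟨(cE_mem_holed n e2 o1 i).mpr i.2, cE_even n i⟩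
    · rintro ⟨h1, h2⟩
      obtain ⟨x, rfl⟩ := cE_surj n p (mem_sdiff.mp h1).1 h2
      exact ⟨⟨x, (cE_mem_holed n e2 o1 x).mp h1⟩, rfl⟩
  · intro p
    constructor
    · rintro ⟨i, rfl⟩
      exact ⟨(cO_mem_holed n e2 o1 _).mpr (φ i).2, cO_odd n _⟩
    · rintro ⟨h1, h2⟩
      obtain ⟨x, rfl⟩ := cO_surj n p (mem_sdiff.mp h1).1 h2
      refine ⟨φ.symm ⟨x, (cO_mem_holed n e2 o1 x).mp h1⟩, ?_⟩
      simp

end Pool.Agent.Q139.Aztec
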